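import Pool.Agent.Run7.h60.FAIso

/-!
# MP_28b04d_gt, Q1: topological isotopies which are almost affine at small scales

Q1 asks whether every diffeomorphism of `CP²` that acts trivially on homology is smoothly isotopic
to the identity.  By the theorems of Perron and Quinn it is isotopic to the identity through
homeomorphisms; the question is whether the path can be made smooth.  The theorem is stated for all
closed smooth manifolds `X`, `Y` of the same dimension `n` (for Q1 `X = Y = CP²`, `n = 4`).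

For every `K ≥ 1` there is `η > 0`, which depends only on `n` and `K`, with the following property.
Let `f_t : X → Y`, `0 ≤ t ≤ 1`, be a path of homeomorphisms between two diffeomorphisms, continuous
in `(t, x)`; nothing more is assumed about the dependence on `t`.  Suppose that every `(t₀, x₀)` near
which the path is not a smooth path of local diffeomorphisms has a smooth parametrization `A` near
`x₀`, bi-Lipschitz with the constant `K` with respect to a fixed function `d` (for example the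
distance of a Riemannian metric) and smooth coordinates `B` near `f_{t₀} x₀` such that the maps
`h_t = B ∘ f_t ∘ A` are almost affine: for all `t` near `t₀`, all `z` near `0` and all small
scales `r` there is a linear isomorphism `L`, which may depend on `t`, on `z` and on `r` in an
arbitrary way, such that

`‖L⁻¹ (h_t (z + y) - h_t z) - y‖ ≤ η r` for all `y` with `‖y‖ ≤ r`.

Then the path is a limit of smooth isotopies with the same ends; in particular the two
diffeomorphisms are smoothly isotopic.  It is enough to have this for the scales `r = ε k` of one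
sequence `ε k → 0`, if the linear isomorphisms satisfy `‖L⁻¹‖ ‖L‖² ε k → 0`, uniformly near
`(t₀, 0)`.

So a diffeomorphism of `CP²`, trivial on homology, which is not smoothly isotopic to the identity
would be joined to the identity by topological isotopies, but by none of this kind.

Method: the path is averaged over a short time, so short that this is small in comparison with all
the maps `L` of the chosen scale (there is a bound for their inverses, since the maps `f_t` are
homeomorphisms), and mollified in finitely many boxes, one after the other; the derivatives which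
occur are `L (1 + E)` with one `L` and `‖E‖ < 1`, a convex condition.
-/

set_option autoImplicit false

open Set Filter Topology Metric Function
open scoped Manifold ContDiff

noncomputable section

namespace Pool.Agent.Results.MP_28b04d_gt.AlmostAffineIsotopy

/-- `ℝⁿ` -/
abbrev R (n : ℕ) : Type := EuclideanSpace ℝ (Fin n)

/-- On the ball of radius `r` about `z` the map `h` differs from an affine map with the linear part
`L` by at most `η r`, measured after applying the inverse of `L`. -/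
def AffineOn {n : ℕ} (η : ℝ) (h : R n → R n) (z : R n) (r : ℝ) (L : R n ≃L[ℝ] R n) : Prop :=
  ∀ y : R n, ‖y‖ ≤ r → ‖L.symm (h (z + y) - h z) - y‖ ≤ η * r

/-- The maps `h t` are almost affine near `0`, for `t` in `[0, 1]` near `t₀`, with linear parts
`L t z r` which depend on the time `t`, on the point `z` and on the scale `r`: either at all small
scales `r`, or at the scales `ε k`, with `‖L⁻¹‖ ‖L‖² ε k → 0`. -/
def AlmostAffine {n : ℕ} (η : ℝ) (ε : ℕ → ℝ) (t₀ : ℝ) (h : ℝ → R n → R n) : Prop :=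
  ∃ (ρ : ℝ) (L : ℝ → R n → ℝ → (R n ≃L[ℝ] R n)), 0 < ρ ∧
    ((∀ᶠ r in 𝓝[>] (0 : ℝ), ∀ t ∈ Icc (0 : ℝ) 1, dist t t₀ < ρ → ∀ z : R n, ‖z‖ < ρ →
        AffineOn η (h t) z r (L t z r)) ∨
      ((∀ᶠ k in atTop, ∀ t ∈ Icc (0 : ℝ) 1, dist t t₀ < ρ → ∀ z : R n, ‖z‖ < ρ →
          AffineOn η (h t) z (ε k) (L t z (ε k))) ∧
        ∀ δ : ℝ, 0 < δ → ∀ᶠ k in atTop, ∀ t ∈ Icc (0 : ℝ) 1, dist t t₀ < ρ → ∀ z : R n, ‖z‖ < ρ →
          ‖((L t z (ε k)).symm : R n →L[ℝ] R n)‖ * ‖(L t z (ε k) : R n →L[ℝ] R n)‖ ^ 2 * ε k ≤ δ))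

section defs

variable (n : ℕ) {X Y : Type} [TopologicalSpace X] [ChartedSpace (R n) X] [TopologicalSpace Y]
  [ChartedSpace (R n) Y]

/-- `φ` is a diffeomorphism -/
def IsDiffeo (φ : X → Y) : Prop := ∃ Φ : X ≃ₘ^∞⟮𝓡 n, 𝓡 n⟯ Y, ∀ x, Φ x = φ x

/-- `F_t` is a smooth path of diffeomorphisms from `φ₀` to `φ₁` -/
def SmoothIsotopy (φ₀ φ₁ : X → Y) (F : ℝ × X → Y) : Prop :=
  ContMDiff ((𝓘(ℝ, ℝ)).prod (𝓡 n)) (𝓡 n) ∞ F ∧ (∀ t, IsDiffeo n fun x => F (t, x)) ∧
    (∀ x, F (0, x) = φ₀ x) ∧ ∀ x, F (1, x) = φ₁ x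

/-- `A` is a smooth parametrization of a neighbourhood of `x = A 0` -/
def IsParam (A : R n → X) (x : X) : Prop := A 0 = x ∧ IsLocalDiffeomorphAt (𝓡 n) (𝓡 n) ∞ A 0

/-- `B` is a smooth coordinate system around `y` -/
def IsCoord (B : Y → R n) (y : Y) : Prop := IsLocalDiffeomorphAt (𝓡 n) (𝓡 n) ∞ B y

/-- `A` is bi-Lipschitz near `0` with the constant `K`, with respect to `d` -/
def BiLipschitz (d : X → X → ℝ) (K : ℝ) (A : R n → X) : Prop :=
  ∀ᶠ q : R n × R n in 𝓝 0, d (A q.1) (A q.2) ≤ K * ‖q.1 - q.2‖ ∧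
    ‖q.1 - q.2‖ ≤ K * d (A q.1) (A q.2)

/-- near `(t₀, x₀)` in `[0, 1] × X` the path `f` is smooth, and `f_{t₀}` is a local diffeomorphism
at `x₀` -/
def SmoothNear (f : ℝ × X → Y) (t₀ : ℝ) (x₀ : X) : Prop :=
  (∀ᶠ q in 𝓝[Icc (0 : ℝ) 1 ×ˢ (univ : Set X)] (t₀, x₀),
    ContMDiffWithinAt ((𝓘(ℝ, ℝ)).prod (𝓡 n)) (𝓡 n) ∞ f (Icc (0 : ℝ) 1 ×ˢ (univ : Set X)) q) ∧
    IsLocalDiffeomorphAt (𝓡 n) (𝓡 n) ∞ (fun x => f (t₀, x)) x₀

/-- the path `f` is almost affine at `(t₀, x₀)`, in a parametrization near `x₀` which is bi-Lipschitz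
with the constant `K` and in some coordinates of the target -/
def AlmostAffineAt (d : X → X → ℝ) (K η : ℝ) (ε : ℕ → ℝ) (f : ℝ × X → Y) (t₀ : ℝ) (x₀ : X) :
    Prop :=
  ∃ (A : R n → X) (B : Y → R n), IsParam n A x₀ ∧ IsCoord n B (f (t₀, x₀)) ∧
    BiLipschitz n d K A ∧ AlmostAffine η ε t₀ fun t z => B (f (t, A z))

end defs

/-- **Topological isotopies which are almost affine at small scales are limits of smooth
isotopies.** -/
theorem result (n : ℕ) (K : ℝ) (hK : 1 ≤ K) : ∃ η : ℝ, 0 < η ∧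
    ∀ (X Y : Type) [TopologicalSpace X] [T2Space X] [CompactSpace X] [ChartedSpace (R n) X]
      [IsManifold (𝓡 n) ∞ X] [TopologicalSpace Y] [T2Space Y] [ChartedSpace (R n) Y]
      [IsManifold (𝓡 n) ∞ Y] (d : X → X → ℝ) (ε : ℕ → ℝ), (∀ k, 0 < ε k) →
      Tendsto ε atTop (𝓝 0) → ∀ f : ℝ × X → Y, ContinuousOn f (Icc 0 1 ×ˢ univ) →
      (∀ t ∈ Icc (0 : ℝ) 1, Bijective fun x => f (t, x)) →
      IsDiffeo n (fun x => f (0, x)) → IsDiffeo n (fun x => f (1, x)) →
      (∀ t ∈ Icc (0 : ℝ) 1, ∀ x, SmoothNear n f t x ∨ AlmostAffineAt n d K η ε f t x) →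
      ∀ O : Set ((ℝ × X) × Y), IsOpen O → (∀ t ∈ Icc (0 : ℝ) 1, ∀ x, ((t, x), f (t, x)) ∈ O) →
        ∃ F : ℝ × X → Y, SmoothIsotopy n (fun x => f (0, x)) (fun x => f (1, x)) F ∧
          ∀ t ∈ Icc (0 : ℝ) 1, ∀ x, ((t, x), F (t, x)) ∈ O := by
  refine ⟨Run7.h60.Sc.eta n K, Run7.h60.Sc.eta_pos hK, ?_⟩
  intro X Y _ _ _ _ _ _ _ _ _ d ε hε hε0 f hf hb h0 h1 hx O hO hfO
  have hl : ∀ φ : X → Y, IsDiffeo n φ → ∀ x, IsLocalDiffeomorphAt (𝓡 n) (𝓡 n) ∞ φ x := by
    rintro φ ⟨Φ, hΦ⟩ x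
    have e1 : φ = Φ := funext fun x => (hΦ x).symm
    rw [e1]
    exact Φ.isLocalDiffeomorph x
  obtain ⟨F, e1, e2, e3, e4, e5⟩ := Run7.h60.Sc.affIso (n := n) f hf hb (hl _ h0) (hl _ h1) d hK
    hε hε0 (fun t ht x => by
      rcases hx t ht x with h | ⟨A, B, ⟨k1, k2⟩, k3, k4, k5⟩
      · exact Or.inl h
      · exact Or.inr ⟨A, B, k1, k2, k3, k4, k5⟩) O hO hfO
  refine ⟨F, ⟨fun q => (e1 q).1.self_of_nhds, fun t => ?_, e3, e4⟩, e5⟩
  have hl : IsLocalDiffeomorph (𝓡 n) (𝓡 n) ∞ (fun x => F (t, x)) := fun x => (e1 (t, x)).2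
  exact ⟨hl.diffeomorphOfBijective (e2 t), fun x => rfl⟩

end Pool.Agent.Results.MP_28b04d_gt.AlmostAffineIsotopy
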