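import Pool.Agent.Run7.h7.QIso
import Pool.Agent.Run7.h7.QFam

/-!
# MP_28b04d_gt, Q1: smoothing paths of homeomorphisms with `n - 1` coordinates of class `C^1`

Q1 asks whether every diffeomorphism of `CP²` that acts trivially on homology is smoothly isotopic
to the identity.  Such a diffeomorphism is, by the theorems of Perron and Quinn, isotopic to the
identity through homeomorphisms; the question is whether the path can be made smooth.  The theorem
is stated for all closed smooth manifolds `X`, `Y` of the same dimension `m + 1` (for Q1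
`X = Y = CP²`, `m = 3`).

Let two diffeomorphisms `X → Y` be joined by a path `f_t` of homeomorphisms.  We assume that near
every `(t, x)` either `f` is of class `C^1` (in both variables) and the derivative of `f_t` at `x`
has rank at least `m`, or `m` of the `m + 1` coordinates of `f` are of class `C^1` with independent
derivatives in the direction of `X`, while nothing is known about the last one.  The coordinates may
depend on the point: they are taken from a family of submersions `q j : dom j → ℝ^m` of class `C^1`,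
defined on open subsets of `Y`, any two of which are at each common point transversal or have the
same fibres near this point; or they are given by a map `q` from `Y` to an `m`-manifold which is a
submersion of class `C^1` near the point (for instance `q f_t = p` for a map `p`, so that the `f_t`
are homeomorphisms over an `m`-manifold).  Then the path is a limit of smooth isotopies (in the fine
topology, after a change of the time which makes it constant near both ends); in particular the two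
diffeomorphisms are smoothly isotopic.

The method: `(t, x) ↦ (t, f_t x)` is a homeomorphism of `ℝ × X` onto `ℝ × Y` which preserves near
every bad point the fibres of a submersion onto `ℝ × ℝ^m`; the remaining coordinate is monotone
along these fibres and is mollified in boxes, one after the other; all corrections preserve `t`.
-/

set_option autoImplicit false

open Set Filter Topology Metric Function
open scoped Manifold ContDiff

noncomputable section

namespace Pool.Agent.Results.MP_28b04d_gt.C1Isotopy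

/-- `ℝ^n` -/
abbrev R (n : ℕ) : Type := EuclideanSpace ℝ (Fin n)

/-- the rank of a linear map -/
def rank {n : ℕ} (L : R n →L[ℝ] R n) : ℕ := Module.finrank ℝ (LinearMap.range L.toLinearMap)

section defs

variable (m : ℕ) {X Y : Type} [TopologicalSpace X] [ChartedSpace (R (m + 1)) X]
  [TopologicalSpace Y] [ChartedSpace (R (m + 1)) Y]

/-- `φ` is a diffeomorphism -/
def IsDiffeo (φ : X → Y) : Prop :=
  ∃ Φ : X ≃ₘ^∞⟮𝓡 (m + 1), 𝓡 (m + 1)⟯ Y, ∀ x, Φ x = φ x

/-- the derivative at `x` of a map between `(m + 1)`-manifolds (in the preferred charts) -/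
def der (g : X → Y) (x : X) : R (m + 1) →L[ℝ] R (m + 1) := mfderiv (𝓡 (m + 1)) (𝓡 (m + 1)) g x

/-- the derivative at `x` of a map to `ℝ^m` (in the preferred chart) -/
def derm (q : X → R m) (x : X) : R (m + 1) →L[ℝ] R m := mfderiv (𝓡 (m + 1)) (𝓡 m) q x

/-- `f` is of class `C^1`, in both variables, near `(t, x)`, and the derivative of `f_t` at `x` has
rank at least `m` -/
def C1CorankOne (f : ℝ × X → Y) (t : ℝ) (x : X) : Prop :=
  (∀ᶠ p in 𝓝 (t, x), ContMDiffAt ((𝓘(ℝ, ℝ)).prod (𝓡 (m + 1))) (𝓡 (m + 1)) 1 f p) ∧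
    m ≤ rank (der m (fun z => f (t, z)) x)

/-- `q` is of class `C^1` near `y`, and its derivative at `y` is surjective -/
def Submersion (q : Y → R m) (y : Y) : Prop :=
  (∀ᶠ z in 𝓝 y, ContMDiffAt (𝓡 (m + 1)) (𝓡 m) 1 q z) ∧ Surjective (derm m q y)

/-- no nonzero vector is in the kernels of both derivatives at `y` -/
def Transversal (q q' : Y → R m) (y : Y) : Prop :=
  ∀ v : R (m + 1), derm m q y v = 0 → derm m q' y v = 0 → v = 0

/-- near `y`, the map `q'` is constant on the fibres of `q` -/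
def SameFibres (q q' : Y → R m) (y : Y) : Prop :=
  ∃ W ∈ 𝓝 y, ∀ z ∈ W, ∀ z' ∈ W, q z = q z' → q' z = q' z'

/-- a family of submersions of class `C^1` from open subsets of `Y` to `ℝ^m`, any two of which are
at every common point transversal or have the same fibres near this point -/
structure Family (Y : Type) [TopologicalSpace Y] [ChartedSpace (R (m + 1)) Y] where
  /-- the set of indices -/
  Idx : Type
  /-- the domains -/
  dom : Idx → Set Y
  /-- the maps (the values outside the domains are irrelevant) -/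
  map : Idx → Y → R m
  isOpen_dom : ∀ j, IsOpen (dom j)
  submersion : ∀ j, ∀ y ∈ dom j, Submersion m (map j) y
  compatible : ∀ j k, ∀ y ∈ dom j, y ∈ dom k →
    Transversal m (map j) (map k) y ∨ SameFibres m (map j) (map k) y

/-- `m` coordinates of `f` near `(t, x)`, given by a member of the family, are of class `C^1` in
both variables, with independent derivatives in the direction of `X` -/
def CoordinatesC1 (𝓕 : Family m Y) (f : ℝ × X → Y) (t : ℝ) (x : X) : Prop :=
  ∃ j, f (t, x) ∈ 𝓕.dom j ∧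
    (∀ᶠ p in 𝓝 (t, x), ContMDiffAt ((𝓘(ℝ, ℝ)).prod (𝓡 (m + 1))) (𝓡 m) 1
      (fun p => 𝓕.map j (f p)) p) ∧
    Surjective (derm m (fun z => 𝓕.map j (f (t, z))) x)

/-- the derivative at `y` of a map to an `m`-manifold (in the preferred charts) -/
def derB {B : Type} [TopologicalSpace B] [ChartedSpace (R m) B] (q : Y → B) (y : Y) :
    R (m + 1) →L[ℝ] R m := mfderiv (𝓡 (m + 1)) (𝓡 m) q y

/-- `q`, a map to an `m`-manifold, is of class `C^1` near `y`, with surjective derivative at `y` -/
def SubmersionB {B : Type} [TopologicalSpace B] [ChartedSpace (R m) B] (q : Y → B) (y : Y) : Prop :=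
  (∀ᶠ z in 𝓝 y, ContMDiffAt (𝓡 (m + 1)) (𝓡 m) 1 q z) ∧ Surjective (derB m q y)

/-- `q`, a map to an `m`-manifold, is a submersion of class `C^1` near `f (t, x)`, and `q ∘ f` is of
class `C^1` in both variables near `(t, x)` and a submersion in the direction of `X` -/
def OverC1 {B : Type} [TopologicalSpace B] [ChartedSpace (R m) B] (q : Y → B) (f : ℝ × X → Y)
    (t : ℝ) (x : X) : Prop :=
  SubmersionB m q (f (t, x)) ∧
    (∀ᶠ p in 𝓝 (t, x), ContMDiffAt ((𝓘(ℝ, ℝ)).prod (𝓡 (m + 1))) (𝓡 m) 1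
      (fun p => q (f p)) p) ∧
    Surjective (derB m (fun z => q (f (t, z))) x)

/-- `K` is a smooth path of diffeomorphisms -/
def IsIsotopy (K : ℝ × X → Y) : Prop :=
  ContMDiff ((𝓘(ℝ, ℝ)).prod (𝓡 (m + 1))) (𝓡 (m + 1)) ∞ K ∧
    ∀ t, IsDiffeo m (fun x => K (t, x))

/-- `φ₀` and `φ₁` are joined by a smooth path of diffeomorphisms -/
def SmoothlyIsotopic (φ₀ φ₁ : X → Y) : Prop :=
  ∃ K : ℝ × X → Y, IsIsotopy m K ∧ (∀ x, K (0, x) = φ₀ x) ∧ ∀ x, K (1, x) = φ₁ x

end defs

/-- a smooth function with values in the unit interval, `0` for `s ≤ a` and `1` for `s ≥ b`, for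
some `0 < a` and `b < 1` -/
def IsStep (θ : ℝ → ℝ) : Prop :=
  ContDiff ℝ ∞ θ ∧ (∀ s, θ s ∈ Icc (0 : ℝ) 1) ∧
    ∃ a b : ℝ, 0 < a ∧ b < 1 ∧ (∀ s ≤ a, θ s = 0) ∧ ∀ s, b ≤ s → θ s = 1

theorem exists_step : ∃ θ : ℝ → ℝ, IsStep θ := by
  refine ⟨fun s => Real.smoothTransition (3 * s - 1), ?_, fun s => ?_, 1 / 3, 2 / 3, by norm_num,
    by norm_num, fun s hs => ?_, fun s hs => ?_⟩
  · exact Real.smoothTransition.contDiff.comp ((contDiff_const.mul contDiff_id).sub contDiff_const)
  · exact ⟨Real.smoothTransition.nonneg _, Real.smoothTransition.le_one _⟩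
  · exact Real.smoothTransition.zero_of_nonpos (by linarith)
  · exact Real.smoothTransition.one_of_one_le (by linarith)

theorem fam {m : ℕ} {Y : Type} [TopologicalSpace Y] [ChartedSpace (R (m + 1)) Y]
    (𝓕 : Family m Y) : Run7.h7.Fam m 𝓕.dom 𝓕.map :=
  ⟨𝓕.isOpen_dom, fun j y hy => ⟨(𝓕.submersion j y hy).1.self_of_nhds, (𝓕.submersion j y hy).2⟩,
    𝓕.compatible⟩

theorem OverC1.mem {m : ℕ} {X Y B : Type} [TopologicalSpace X] [ChartedSpace (R (m + 1)) X]
    [IsManifold (𝓡 (m + 1)) ∞ X] [TopologicalSpace Y] [ChartedSpace (R (m + 1)) Y]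
    [IsManifold (𝓡 (m + 1)) ∞ Y] [TopologicalSpace B] [ChartedSpace (R m) B]
    [IsManifold (𝓡 m) ∞ B] {q : Y → B} {f : ℝ × X → Y} {t : ℝ} {x : X} (h : OverC1 m q f t x) :
    f (t, x) ∈ {y | (∀ᶠ z in 𝓝 y, ContinuousAt q z) ∧
      q y ∈ (chartAt (R m) (q (f (t, x)))).source ∧
      Run7.h7.SubAt (m + 1) m (fun z => chartAt (R m) (q (f (t, x))) (q z)) y} ∧
    Run7.h7.SubT m (fun z => chartAt (R m) (q (f (t, x))) (q z)) f t x := by
  obtain ⟨⟨h1, h2⟩, h3, h4⟩ := h
  have h5 : Run7.h7.SubB m q (f (t, x)) := ⟨h1, h2⟩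
  have hi : ∀ z : X, ContMDiffAt (𝓡 (m + 1)) ((𝓘(ℝ, ℝ)).prod (𝓡 (m + 1))) 1
      (fun z : X => ((t, z) : ℝ × X)) z := fun z => contMDiffAt_const.prodMk contMDiffAt_id
  have h6 : Run7.h7.SubB m (fun z => q (f (t, z))) x := by
    refine ⟨?_, h4⟩
    have h7 : ContinuousAt (fun z : X => ((t, z) : ℝ × X)) x := (hi x).continuousAt
    filter_upwards [h7.eventually h3] with z hz
    exact ContMDiffAt.comp (g := fun p => q (f p)) (f := fun z : X => ((t, z) : ℝ × X)) z hz (hi z)
  refine ⟨⟨h1.mono fun z hz => hz.continuousAt, mem_chart_source _ _,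
    h5.chart (mem_chart_source _ _)⟩, ?_, (h6.chart (mem_chart_source _ _)).2⟩
  have h8 : Pool.Agent.Y522.LD m (chartAt (R m) (q (f (t, x))) : B → R m) (q (f (t, x))) :=
    Pool.Agent.Y66.CM.LD_chart _ _ (mem_chart_source _ _)
  have h9 : ContMDiffAt (𝓡 m) (𝓡 m) 1 (chartAt (R m) (q (f (t, x))) : B → R m) (q (f (t, x))) :=
    h8.contMDiffAt.of_le (by simp)
  exact ContMDiffAt.comp (g := (chartAt (R m) (q (f (t, x))) : B → R m))
    (f := fun p : ℝ × X => q (f p)) (t, x) h9 h3.self_of_nhds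

/-- every time change of the path `f` which is constant near the ends is a limit of smooth
isotopies with the same ends, in the fine topology: every open neighbourhood of its graph contains
the graph of one -/
def LimitOfIsotopies (m : ℕ) {X Y : Type} [TopologicalSpace X] [ChartedSpace (R (m + 1)) X]
    [TopologicalSpace Y] [ChartedSpace (R (m + 1)) Y] (f : ℝ × X → Y) : Prop :=
  ∀ θ : ℝ → ℝ, IsStep θ → ∀ O : Set ((ℝ × X) × Y), IsOpen O →
    (∀ s x, ((s, x), f (θ s, x)) ∈ O) →
    ∃ K : ℝ × X → Y, IsIsotopy m K ∧ (∀ s, s ∉ Ioo (0 : ℝ) 1 → ∀ x, K (s, x) = f (θ s, x)) ∧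
      ∀ s x, ((s, x), K (s, x)) ∈ O

section proofs

variable {m : ℕ} {X Y : Type} [TopologicalSpace X] [T2Space X] [CompactSpace X]
  [ChartedSpace (R (m + 1)) X] [IsManifold (𝓡 (m + 1)) ∞ X] [TopologicalSpace Y] [T2Space Y]
  [ChartedSpace (R (m + 1)) Y] [IsManifold (𝓡 (m + 1)) ∞ Y]

omit [T2Space X] [CompactSpace X] [IsManifold (𝓡 (m + 1)) ∞ X] [T2Space Y]
  [IsManifold (𝓡 (m + 1)) ∞ Y] in
theorem LimitOfIsotopies.ends {f : ℝ × X → Y} (h : LimitOfIsotopies m f) :
    SmoothlyIsotopic m (fun x => f (0, x)) (fun x => f (1, x)) := by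
  obtain ⟨θ, hθ⟩ := exists_step
  obtain ⟨K, k1, k2, -⟩ := h θ hθ univ isOpen_univ (fun _ _ => mem_univ _)
  obtain ⟨-, -, a, b, ha, hb1, t3, t4⟩ := hθ
  refine ⟨K, k1, fun x => ?_, fun x => ?_⟩
  · rw [k2 0 (fun h => lt_irrefl _ h.1), t3 0 ha.le]
  · rw [k2 1 (fun h => lt_irrefl _ h.2), t4 1 hb1.le]

theorem general {J : Type} {U : J → Set Y} {Q : J → Y → R m} (hQ : Run7.h7.Fam m U Q)
    (f : ℝ × X → Y) (hf : Continuous f)
    (hb : ∀ t ∈ Icc (0 : ℝ) 1, Bijective (fun x => f (t, x)))
    (hc : ∀ t ∈ Icc (0 : ℝ) 1, ∀ x, C1CorankOne m f t x ∨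
      ∃ j, f (t, x) ∈ U j ∧ Run7.h7.SubT m (Q j) f t x)
    (h0 : IsDiffeo m (fun x => f (0, x))) (h1 : IsDiffeo m (fun x => f (1, x))) :
    LimitOfIsotopies m f := by
  intro θ ⟨t1, t2, a, b, ha, hb1, t3, t4⟩ O hO hfO
  obtain ⟨Φ₀, e0⟩ := h0
  obtain ⟨Φ₁, e1⟩ := h1
  have e0' : (fun x => f (0, x)) = Φ₀ := funext fun x => (e0 x).symm
  have e1' : (fun x => f (1, x)) = Φ₁ := funext fun x => (e1 x).symm
  obtain ⟨K, k1, k2, k3, k4, k5⟩ := Run7.h7.iso_main (m := m) f hf hb (C := univ)
    isCompact_univ (fun t _ x hx => absurd (mem_univ x) hx) isOpen_univ (subset_univ _)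
    (fun x => by rw [e0']; exact Φ₀.isLocalDiffeomorph x)
    (fun x => by rw [e1']; exact Φ₁.isLocalDiffeomorph x) hQ
    (fun t ht x _ => (hc t ht x).imp (fun h => ⟨h.1.self_of_nhds, h.2⟩) id)
    t1 t2 ha hb1 (fun s hs => t3 s hs.le) (fun s hs => t4 s hs.le) hO hfO
  refine ⟨K, ⟨k1, fun t => ?_⟩, fun s hs x => k4 s x (Or.inl hs), k5⟩
  have hl : IsLocalDiffeomorph (𝓡 (m + 1)) (𝓡 (m + 1)) ∞ (fun x => K (t, x)) := k3 t
  exact ⟨hl.diffeomorphOfBijective (k2 t), fun x => rfl⟩

end proofs

/-- at every point of the path, `f` is of class `C^1` and of corank at most one, or has `m`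
coordinates of class `C^1`, given by a member of a family of submersions -/
def C1ByFamily (m : ℕ) {X Y : Type} [TopologicalSpace X] [ChartedSpace (R (m + 1)) X]
    [TopologicalSpace Y] [ChartedSpace (R (m + 1)) Y] (f : ℝ × X → Y) : Prop :=
  ∃ 𝓕 : Family m Y, ∀ t ∈ Icc (0 : ℝ) 1, ∀ x, C1CorankOne m f t x ∨ CoordinatesC1 m 𝓕 f t x

/-- at every point of the path, `f` is of class `C^1` and of corank at most one, or has `m`
coordinates of class `C^1`, given by a map `q` to a smooth `m`-manifold `B` -/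
def C1ByMap (m : ℕ) {X Y : Type} [TopologicalSpace X] [ChartedSpace (R (m + 1)) X]
    [TopologicalSpace Y] [ChartedSpace (R (m + 1)) Y] (f : ℝ × X → Y) : Prop :=
  ∃ (B : Type) (_ : TopologicalSpace B) (_ : ChartedSpace (R m) B) (_ : IsManifold (𝓡 m) ∞ B)
    (q : Y → B), ∀ t ∈ Icc (0 : ℝ) 1, ∀ x, C1CorankOne m f t x ∨ OverC1 m q f t x

/-- a path of homeomorphisms (continuous bijections `f_t`, `0 ≤ t ≤ 1`) joining two
diffeomorphisms -/
def IsPath (m : ℕ) {X Y : Type} [TopologicalSpace X] [ChartedSpace (R (m + 1)) X]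
    [TopologicalSpace Y] [ChartedSpace (R (m + 1)) Y] (f : ℝ × X → Y) : Prop :=
  Continuous f ∧ (∀ t ∈ Icc (0 : ℝ) 1, Bijective (fun x => f (t, x))) ∧
    IsDiffeo m (fun x => f (0, x)) ∧ IsDiffeo m (fun x => f (1, x))

/-- Let `X`, `Y` be closed smooth manifolds of dimension `m + 1` and `f_t : X → Y` a path of
homeomorphisms which joins two diffeomorphisms.  If at every `(t, x)` it is of class `C^1` and of
corank at most one, or has `m` coordinates of class `C^1` (given by a family of submersions, or by a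
map `q` to an `m`-manifold), then it is a limit of smooth isotopies and `f_0` and `f_1` are smoothly
isotopic. -/
theorem result (m : ℕ) (X Y : Type) [TopologicalSpace X] [T2Space X] [CompactSpace X]
    [ChartedSpace (R (m + 1)) X] [IsManifold (𝓡 (m + 1)) ∞ X]
    [TopologicalSpace Y] [T2Space Y]
    [ChartedSpace (R (m + 1)) Y] [IsManifold (𝓡 (m + 1)) ∞ Y]
    (f : ℝ × X → Y) (hf : IsPath m f) (hc : C1ByFamily m f ∨ C1ByMap m f) :
    LimitOfIsotopies m f ∧ SmoothlyIsotopic m (fun x => f (0, x)) (fun x => f (1, x)) := by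
  obtain ⟨hf, hb, h0, h1⟩ := hf
  rcases hc with ⟨𝓕, hc⟩ | ⟨B, _, _, _, q, hc⟩
  · have h := general (fam 𝓕) f hf hb (fun t ht x => (hc t ht x).imp id
      fun ⟨j, h1, h2, h3⟩ => ⟨j, h1, h2.self_of_nhds, h3⟩) h0 h1
    exact ⟨h, h.ends⟩
  · have h := general (Run7.h7.famB q) f hf hb (fun t ht x => (hc t ht x).imp id
      fun h => ⟨q (f (t, x)), h.mem⟩) h0 h1
    exact ⟨h, h.ends⟩

end Pool.Agent.Results.MP_28b04d_gt.C1Isotopy
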