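import Pool.Agent.Run7.h7.AvgExt

/-!
# MP_28b04d_gt, Q1: mean oscillation of the differential and changes of a diffeomorphism in a chart

Q1 asks whether every diffeomorphism of `CP²` which acts trivially on homology is smoothly isotopic
to the identity.  Let `X` be a smooth manifold of dimension `n` (Q1: `X = CP²`, `n = 4`),
`α : ℝⁿ → X` an open smooth embedding (for instance the affine chart of `CP²`, whose image is the
complement of a line) and `G` a diffeomorphism of `X` (for instance the identity).  The theorem is on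
the diffeomorphisms `f = G φ` of `X`, where `φ` is a diffeomorphism of `ℝⁿ` with compact support,
extended by the identity; so `f` is any diffeomorphism with `f = G` outside of a compact part of the
chart.  The conditions are on the mean oscillation of the differential `Dφ` over balls `B`, that is
the average over `B` of `‖Dφ - (Dφ)_B‖`, where `(Dφ)_B` is the average of `Dφ` over `B`.

* If the average over `B` of `‖Dφ - (Dφ)_B‖ ‖(Dφ)⁻¹‖` is less than one for every ball `B`, then `f` is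
  isotopic to `G`.
* If for some probability measure `μ` with bounded support and without atoms all the averages
  `∫ Dφ(x + r z) dμ(z)`, `r > 0`, are nonsingular, then `f` is isotopic to `G`.
* Let `‖(Dφ)⁻¹‖ ≤ M`, `‖(Dψ)⁻¹‖ ≤ M`, and let the mean oscillation of `Dφ` and `Dψ` be at most `θ` on
  all balls of radius at most `r₀`, where `M θ < 1`.  If `2 n M |φ - ψ| ≤ 2 n M η < r₀ (1 - M θ)`, then
  the diffeomorphisms `G φ` and `G ψ` are isotopic.
* For all `M`, `θ`, `r₀`, `ρ` with `M θ < 1`, the diffeomorphisms `G φ`, `φ` with support in the ball of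
  radius `ρ`, `‖(Dφ)⁻¹‖ ≤ M` and mean oscillation at most `θ` on the balls of radius at most `r₀`,
  represent only finitely many isotopy classes.
* If `‖(Dφ)⁻¹‖ ≤ M`, `∫ ‖D²φ‖ⁿ ≤ τⁿ |B₁|` and `2ⁿ⁺¹ τ M < 1` then `f` is isotopic to `G`.
-/

set_option autoImplicit false

open MeasureTheory Metric Function Set
open scoped Manifold ContDiff

noncomputable section

namespace Pool.Agent.Results.MP_28b04d_gt.MeanOscillation

/-- `ℝⁿ` -/
abbrev R (n : ℕ) : Type := EuclideanSpace ℝ (Fin n)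

variable {n : ℕ}

/-- diffeomorphisms of `ℝⁿ` with compact support -/
structure IsDiffeo (φ : R n → R n) : Prop where
  smooth : ContDiff ℝ ∞ φ
  inverse : ∃ g : R n → R n, ContDiff ℝ ∞ g ∧ LeftInverse g φ ∧ RightInverse g φ
  support : ∃ ρ : ℝ, ∀ x, ρ < ‖x‖ → φ x = x

/-- the average of the differential over the ball with centre `x` and radius `r` -/
def mean (φ : R n → R n) (x : R n) (r : ℝ) : R n →L[ℝ] R n := ⨍ y in ball x r, fderiv ℝ φ y

/-- the mean oscillation of the differential on this ball -/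
def osc (φ : R n → R n) (x : R n) (r : ℝ) : ℝ := ⨍ y in ball x r, ‖fderiv ℝ φ y - mean φ x r‖

/-- the mean oscillation weighted by the norm of the inverse of the differential -/
def weightedOsc (φ : R n → R n) (x : R n) (r : ℝ) : ℝ :=
  ⨍ y in ball x r, ‖fderiv ℝ φ y - mean φ x r‖ * ‖(fderiv ℝ φ y).inverse‖

/-- `‖(Dφ)⁻¹‖ ≤ M` -/
def InverseBound (M : ℝ) (φ : R n → R n) : Prop := ∀ x v, ‖v‖ ≤ M * ‖fderiv ℝ φ x v‖

/-- the mean oscillation is at most `θ` on all balls of radius at most `r₀` -/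
def SmallOsc (θ r₀ : ℝ) (φ : R n → R n) : Prop := ∀ x r, 0 < r → r ≤ r₀ → osc φ x r ≤ θ

/-- `φ` is a diffeomorphism with `‖(Dφ)⁻¹‖ ≤ M` and mean oscillation at most `θ` on all balls of
radius at most `r₀` -/
def Admissible (M θ r₀ : ℝ) (φ : R n → R n) : Prop :=
  IsDiffeo φ ∧ InverseBound M φ ∧ SmallOsc θ r₀ φ

/-- `φ` is the identity outside of the ball of radius `ρ` -/
def SupportedIn (ρ : ℝ) (φ : R n → R n) : Prop := ∀ x, ρ < ‖x‖ → φ x = x

/-- the norm of the second derivative -/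
def secondNorm (φ : R n → R n) (y : R n) : ℝ := ‖iteratedFDeriv ℝ 2 φ y‖

/-- the volume of the unit ball of `ℝⁿ` (`π² / 2` for `n = 4`) -/
def unitVolume (n : ℕ) : ℝ := (volume : Measure (R n)).real (ball 0 1)

section manifold

variable {X : Type} [TopologicalSpace X] [ChartedSpace (R n) X]

/-- `f` is a diffeomorphism of `X` -/
def IsDiffeoX (n : ℕ) {X : Type} [TopologicalSpace X] [ChartedSpace (R n) X] (f : X → X) : Prop :=
  ∃ Φ : X ≃ₘ^∞⟮𝓡 n, 𝓡 n⟯ X, ∀ x, Φ x = f x

/-- `f` and `g` are joined by a smooth path of diffeomorphisms of `X` -/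
def Isotopic (n : ℕ) {X : Type} [TopologicalSpace X] [ChartedSpace (R n) X] (f g : X → X) : Prop :=
  ∃ K : ℝ × X → X, ContMDiff ((𝓘(ℝ, ℝ)).prod (𝓡 n)) (𝓡 n) ∞ K ∧
    (∀ t ∈ Icc (0 : ℝ) 1, IsDiffeoX n (fun x => K (t, x))) ∧ (∀ x, K (0, x) = f x) ∧
    ∀ x, K (1, x) = g x

/-- `α : ℝⁿ → X` is an open smooth embedding (the inverse of a chart) -/
def IsChart (α : R n → X) : Prop := Injective α ∧ IsLocalDiffeomorph (𝓡 n) (𝓡 n) ∞ α

/-- `f = G φ`, where `φ` is extended by the identity from the chart `α` -/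
def ChangedBy (α : R n → X) (G : X → X) (φ : R n → R n) (f : X → X) : Prop :=
  (∀ y, f (α y) = G (α (φ y))) ∧ ∀ x, (¬ ∃ y, α y = x) → f x = G x

/-- weighted mean oscillation less than one on all balls -/
def WeightedOscillation (α : R n → X) (G : X → X) : Prop :=
  ∀ (φ : R n → R n) (f : X → X), IsDiffeo φ → ChangedBy α G φ f →
    (∀ x r, 0 < r → weightedOsc φ x r < 1) → Isotopic n f G

/-- nonsingular averages along a measure without atoms -/
def NonsingularAverages (α : R n → X) (G : X → X) : Prop :=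
  ∀ (μ : Measure (R n)), IsProbabilityMeasure μ → (∃ S : ℝ, ∀ᵐ z ∂μ, ‖z‖ ≤ S) →
    (∀ z, μ {z} = 0) → ∀ (φ : R n → R n) (f : X → X), IsDiffeo φ → ChangedBy α G φ f →
      (∀ r : ℝ, 0 < r → ∀ x, Injective (∫ z, fderiv ℝ φ (x + r • z) ∂μ : R n →L[ℝ] R n)) →
      Isotopic n f G

/-- two diffeomorphisms which are close with respect to the scale -/
def ClosePairs (α : R n → X) (G : X → X) : Prop :=
  ∀ M θ r₀ η : ℝ, 0 ≤ M → M * θ < 1 → 0 < r₀ → 2 * n * M * η < r₀ * (1 - M * θ) →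
    ∀ φ ψ : R n → R n, Admissible M θ r₀ φ → Admissible M θ r₀ ψ → (∀ x, ‖φ x - ψ x‖ ≤ η) →
      ∀ f g : X → X, ChangedBy α G φ f → ChangedBy α G ψ g → Isotopic n f g

/-- finitely many isotopy classes -/
def FiniteClasses (α : R n → X) (G : X → X) : Prop :=
  ∀ M θ r₀ ρ : ℝ, 0 ≤ M → M * θ < 1 → 0 < r₀ →
    ∃ (N : ℕ) (Ψ : Fin N → X → X),
      (∀ i, ∃ ψ, Admissible M θ r₀ ψ ∧ SupportedIn ρ ψ ∧ ChangedBy α G ψ (Ψ i)) ∧
      ∀ (φ : R n → R n) (f : X → X), Admissible M θ r₀ φ → SupportedIn ρ φ → ChangedBy α G φ f →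
        ∃ i, Isotopic n f (Ψ i)

/-- small energy -/
def EnergyGap (α : R n → X) (G : X → X) : Prop :=
  ∀ M τ : ℝ, 0 ≤ M → 0 ≤ τ → 2 ^ (n + 1) * τ * M < 1 → ∀ (φ : R n → R n) (f : X → X), IsDiffeo φ →
    ChangedBy α G φ f → InverseBound M φ → ∫ y, secondNorm φ y ^ n ≤ τ ^ n * unitVolume n →
    Isotopic n f G

end manifold

open Run7.h7.Avg (DiffC IsotopicC Cls)

theorem toC {φ : R n → R n} (h : IsDiffeo φ) : DiffC φ := ⟨h.smooth, h.inverse, h.support⟩

theorem ofC {φ : R n → R n} (h : DiffC φ) : IsDiffeo φ := ⟨h.smooth, h.inv, h.supp⟩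

theorem osc_eq (φ : R n → R n) (x : R n) {r : ℝ} (hr : 0 < r) :
    Run7.h7.Avg.OS volume φ r x = osc φ x r := by
  rw [Run7.h7.Avg.OS, Run7.h7.Avg.HM_unif volume _ hr, osc]
  have e : Run7.h7.Avg.AV (Run7.h7.Avg.unif volume) φ r x = mean φ x r :=
    Run7.h7.Avg.HM_unif volume _ hr x
  rw [e]

theorem toCls {M θ r₀ : ℝ} {φ : R n → R n} (h : Admissible M θ r₀ φ) : Cls volume M θ r₀ φ :=
  ⟨toC h.1, h.2.1, fun x r h0 h1 => by
    rw [osc_eq φ x h0]
    exact h.2.2 x r h0 h1⟩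

theorem ofCls {M θ r₀ : ℝ} {φ : R n → R n} (h : Cls volume M θ r₀ φ) : Admissible M θ r₀ φ :=
  ⟨ofC h.diff, h.lower, fun x r h0 h1 => by
    rw [← osc_eq φ x h0]
    exact h.osc x r h0 h1⟩

theorem finrank_R (n : ℕ) : Module.finrank ℝ (R n) = n := by simp

theorem secondNorm_eq (φ : R n → R n) (y : R n) :
    secondNorm φ y = ‖fderiv ℝ (fderiv ℝ φ) y‖ := by
  unfold secondNorm
  rw [← norm_iteratedFDeriv_fderiv, norm_iteratedFDeriv_one]

theorem energyOsc (hn : n ≠ 0) (τ r₀ : ℝ) (hτ : 0 ≤ τ) (φ : R n → R n) (hφ : IsDiffeo φ)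
    (he : ∀ x, ∫ y in ball x r₀, secondNorm φ y ^ n ≤ τ ^ n * unitVolume n) :
    SmallOsc (2 ^ (n + 1) * τ) r₀ φ := by
  intro x r h0 h1
  rw [← osc_eq φ x h0]
  refine (Run7.h7.Avg.OS_le (vol := volume) (toC hφ) h0 x).trans ?_
  rw [finrank_R]
  refine mul_le_mul_of_nonneg_left ?_ (by positivity)
  have hc : Continuous (fun y => ‖fderiv ℝ (fderiv ℝ φ) y‖) :=
    ((hφ.smooth.fderiv_right (m := ∞) (by simp)).continuous_fderiv (by simp)).norm
  refine Run7.h7.Avg.mean_le_energy (vol := volume) hc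
    (fun y => norm_nonneg (fderiv ℝ (fderiv ℝ φ) y)) h0 h1 hτ
    (by rw [finrank_R]; exact hn) x ?_
  have := he x
  rw [finrank_R]
  simp only [secondNorm_eq] at this
  exact this

theorem energyC (hn : n ≠ 0) {M τ : ℝ} (hM : 0 ≤ M) (hτ : 0 ≤ τ) (hlt : 2 ^ (n + 1) * τ * M < 1)
    {φ : R n → R n} (hφ : IsDiffeo φ) (hI : InverseBound M φ)
    (he : ∫ y, secondNorm φ y ^ n ≤ τ ^ n * unitVolume n) : IsotopicC φ (fun x => x) := by
  obtain ⟨ρ, hρ⟩ := hφ.support
  set θ : ℝ := 2 ^ (n + 1) * τ with hθ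
  have hθM : 0 < 1 - M * θ := by
    rw [mul_comm M θ]
    linarith
  set m : ℝ := 2 * max ρ 0 with hm
  have hm0 : 0 ≤ m := by positivity
  set r₀ : ℝ := (2 * n * m * M + 1) / (1 - M * θ) with hr₀
  have hr0 : 0 < r₀ := by positivity
  have hint : Integrable (fun y => secondNorm φ y ^ n) := by
    have hc : Continuous (fun y => secondNorm φ y ^ n) := by
      simp only [secondNorm_eq]
      exact (((hφ.smooth.fderiv_right (m := ∞) (by simp)).continuous_fderiv
        (by simp)).norm).pow n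
    refine hc.integrable_of_hasCompactSupport ?_
    refine HasCompactSupport.intro (isCompact_closedBall (0 : R n) (max ρ 0)) fun x hx => ?_
    rw [mem_closedBall, dist_zero_right, not_le] at hx
    have h1 : fderiv ℝ φ =ᶠ[nhds x] fun _ => ContinuousLinearMap.id ℝ (R n) := by
      have h2 : {y : R n | ρ < ‖y‖} ∈ nhds x :=
        (isOpen_lt continuous_const continuous_norm).mem_nhds
          (lt_of_le_of_lt (le_max_left _ _) hx)
      have h3 : φ =ᶠ[nhds x] id := by
        filter_upwards [h2] with y hy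
        exact hρ y hy
      refine (h3.fderiv).trans (Filter.Eventually.of_forall fun y => ?_)
      exact fderiv_id
    rw [secondNorm_eq, h1.fderiv_eq]
    have h4 : fderiv ℝ (fun _ : R n => ContinuousLinearMap.id ℝ (R n)) x = 0 :=
      fderiv_const_apply _
    rw [h4]
    exact (congrArg (fun s : ℝ => s ^ n)
      (norm_zero (E := R n →L[ℝ] R n →L[ℝ] R n))).trans (zero_pow hn)
  have hadm : Admissible M θ r₀ φ := by
    refine ⟨hφ, hI, energyOsc hn τ r₀ hτ φ hφ fun x => ?_⟩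
    exact (setIntegral_le_integral hint (Filter.Eventually.of_forall fun y =>
      pow_nonneg (norm_nonneg _) n)).trans he
  refine Run7.h7.Avg.close_id (η := m) hM hr0 (toCls hadm) (by linarith)
    (fun y => (Run7.h7.Avg.disp_bound (toC hφ) hρ y).2) ?_
  rw [finrank_R, hr₀, div_mul_cancel₀ _ hθM.ne']
  linarith

section manifold

variable {X : Type} [TopologicalSpace X] [T2Space X] [ChartedSpace (R n) X]

omit [TopologicalSpace X] [T2Space X] [ChartedSpace (R n) X] in
theorem ChangedBy.eq {α : R n → X} (hα : Injective α) {G f : X → X} {φ : R n → R n}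
    (h : ChangedBy α G φ f) : f = fun x => G (Run7.h7.AvgExt.ext α φ x) := by
  funext x
  by_cases hx : ∃ y, α y = x
  · obtain ⟨y, rfl⟩ := hx
    rw [h.1, Run7.h7.AvgExt.ext_apply hα]
  · rw [h.2 x hx, Run7.h7.AvgExt.ext_of_not φ hx]

omit [TopologicalSpace X] [T2Space X] [ChartedSpace (R n) X] in
theorem changed {α : R n → X} (hα : Injective α) (G : X → X) (φ : R n → R n) :
    ChangedBy α G φ (fun x => G (Run7.h7.AvgExt.ext α φ x)) :=
  ⟨fun y => congrArg G (Run7.h7.AvgExt.ext_apply hα φ y),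
    fun _ hx => congrArg G (Run7.h7.AvgExt.ext_of_not φ hx)⟩

theorem lift {α : R n → X} (hα : IsChart α) {G : X → X} (hG : IsDiffeoX n G) {φ ψ : R n → R n}
    {f g : X → X} (hf : ChangedBy α G φ f) (hg : ChangedBy α G ψ g) (h : IsotopicC φ ψ) :
    Isotopic n f g := by
  obtain ⟨Γ, hΓ⟩ := hG
  obtain ⟨K, k1, k2, k3, k4⟩ := Run7.h7.AvgExt.ext_iso hα.1 hα.2 h
  rw [hf.eq hα.1, hg.eq hα.1]
  have hΓ' : G = Γ := (funext hΓ).symm
  refine ⟨fun p => G (K p), ?_, fun t ht => ?_, fun x => congrArg G (k3 x),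
    fun x => congrArg G (k4 x)⟩
  · rw [hΓ']
    exact Γ.contMDiff.comp k1
  · obtain ⟨Φ, hΦ⟩ := k2 t ht
    refine ⟨Φ.trans Γ, fun x => ?_⟩
    show Γ (Φ x) = G (K (t, x))
    rw [hΦ, hΓ]

theorem lift_id {α : R n → X} (hα : IsChart α) {G : X → X} (hG : IsDiffeoX n G) {φ : R n → R n}
    {f : X → X} (hf : ChangedBy α G φ f) (h : IsotopicC φ (fun x => x)) : Isotopic n f G :=
  lift hα hG hf ⟨fun _ => rfl, fun _ _ => rfl⟩ h

/-- **Mean oscillation of the differential and changes of a diffeomorphism in a chart.** -/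
theorem result (n : ℕ) (hn : n ≠ 0) (X : Type) [TopologicalSpace X] [T2Space X]
    [ChartedSpace (R n) X] (α : R n → X) (hα : IsChart α) (G : X → X) (hG : IsDiffeoX n G) :
    WeightedOscillation α G ∧ NonsingularAverages α G ∧ ClosePairs α G ∧ FiniteClasses α G ∧
      EnergyGap α G := by
  refine ⟨?_, ?_, ?_, ?_, ?_⟩
  · intro φ f hφ hf h
    exact lift_id hα hG hf (Run7.h7.Avg.weighted (vol := volume) (by rw [finrank_R]; exact hn)
      (toC hφ) fun r hr x => h x r hr)
  · intro μ hμ hS hna φ f hφ hf h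
    obtain ⟨S, hS⟩ := hS
    refine lift_id hα hG hf (Run7.h7.Avg.null_measure (μ := μ) (S := max S 0)
      ⟨hμ, le_max_right _ _, ?_⟩ hna (toC hφ) fun r hr x v hv => ?_)
    · filter_upwards [hS] with z hz
      exact hz.trans (le_max_left _ _)
    · exact h r hr x (hv.trans (map_zero _).symm)
  · intro M θ r₀ η hM hθ hr hlt φ ψ hφ hψ hη f g hf hg
    refine lift hα hG hf hg (Run7.h7.Avg.close hM hr (toCls hφ) (toCls hψ) hθ hη ?_)
    rw [finrank_R]
    linarith
  · intro M θ r₀ ρ hM hθ hr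
    obtain ⟨N, Ψ, h1, h2⟩ := Run7.h7.Avg.finite_classes (vol := (volume : Measure (R n)))
      hM hr hθ ρ
    refine ⟨N, fun i x => G (Run7.h7.AvgExt.ext α (Ψ i) x),
      fun i => ⟨Ψ i, ofCls (h1 i).1, (h1 i).2, changed hα.1 G (Ψ i)⟩, fun φ f hφ hρ hf => ?_⟩
    obtain ⟨i, hi⟩ := h2 φ (toCls hφ) hρ
    exact ⟨i, lift hα hG hf (changed hα.1 G (Ψ i)) hi⟩
  · intro M τ hM hτ hlt φ f hφ hf hI he
    exact lift_id hα hG hf (energyC hn hM hτ hlt hφ hI he)

end manifold

end Pool.Agent.Results.MP_28b04d_gt.MeanOscillation
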